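import Mathlib
import Pool.Agent.H23.Chung.Step
import Pool.Agent.H23.Chung.Lower

set_option autoImplicit false

namespace Pool.Agent.Results.MP_4d273f_co.SinglePacking

open SimpleGraph

/-- For every `d ≥ 2`: if a pair of non-adjacent vertices `v, w` of a graph (finite or infinite)
has no two internally disjoint `v`-`w` paths of length at most `d`, then at most
`⌊(d+1)/3⌋` vertices meet all `v`-`w` paths of length at most `d`; and this is best possible
for every `d ≥ 2`, already for finite graphs. -/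
theorem result (d : ℕ) (hd : 2 ≤ d) :
    (∀ (V : Type) (G : SimpleGraph V) (v w : V), v ≠ w → ¬ G.Adj v w →
      (¬ ∃ p q : G.Walk v w, p.IsPath ∧ q.IsPath ∧ p.length ≤ d ∧ q.length ≤ d ∧
        ∀ x, x ∈ p.support → x ∈ q.support → x = v ∨ x = w) →
      ∃ S : Finset V, S.card ≤ (d + 1) / 3 ∧ v ∉ S ∧ w ∉ S ∧
        ∀ p : G.Walk v w, p.IsPath → p.length ≤ d → ∃ x ∈ S, x ∈ p.support) ∧
    (∃ (V : Type) (_ : Fintype V) (G : SimpleGraph V) (v w : V),
      v ≠ w ∧ ¬ G.Adj v w ∧
      (∃ p : G.Walk v w, p.IsPath ∧ p.length ≤ d) ∧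
      (¬ ∃ p q : G.Walk v w, p.IsPath ∧ q.IsPath ∧ p.length ≤ d ∧ q.length ≤ d ∧
        ∀ x, x ∈ p.support → x ∈ q.support → x = v ∨ x = w) ∧
      ∀ S : Finset V, v ∉ S → w ∉ S →
        (∀ p : G.Walk v w, p.IsPath → p.length ≤ d → ∃ x ∈ S, x ∈ p.support) →
        (d + 1) / 3 ≤ S.card) := by
  classical
  refine ⟨?_, Pool.Agent.H23.Chung.lower d hd⟩
  intro V G v w hvw hadj hno
  have hN : Pool.Agent.H23.Chung.NoTwo G d v w := by
    intro p q hp hq
    by_contra hcon
    push Not at hcon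
    apply hno
    refine ⟨p.bypass, q.bypass, p.bypass_isPath, q.bypass_isPath,
      p.length_bypass_le_length.trans hp, q.length_bypass_le_length.trans hq, ?_⟩
    intro x hx1 hx2
    by_contra hne
    push Not at hne
    exact hcon x hne.1 hne.2 (p.support_bypass_subset_support hx1)
      (q.support_bypass_subset_support hx2)
  obtain ⟨S, h1, h2, h3, h4⟩ := Pool.Agent.H23.Chung.upper v w d G hN
  exact ⟨S, h1, h2, h3, fun p _ hp => h4 p hp⟩

end Pool.Agent.Results.MP_4d273f_co.SinglePacking
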